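import Mathlib
import Pool.Agent.Helper24.OrderSum

set_option autoImplicit false

/-!
Q1: an ordered Banach space in which every increasing order bounded sequence has a supremum
has a normal cone.

Proof.  If the cone is not normal there are `0 ≤ x k ≤ y k` with `‖x k‖ = 2 ^ k` and
`∑ ‖y k‖ < ∞`; put `y = ∑ y k`.  For a bounded sequence `a ≥ 0` the partial sums of `a k • x k` are
increasing and bounded by `‖a‖ • y`, so they have a supremum `T a`.  The map `T` is additive and extends
to a positive linear map from `ℓ^∞` to `X`, whose graph is closed because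
`-‖a‖ • y ≤ T a ≤ ‖a‖ • y` and the cone is closed.  So `T` is bounded, and `‖x k‖ = ‖T (e k)‖ ≤ ‖T‖`
for all `k`: a contradiction.
-/

namespace Pool.Agent.Results.MP_5127fd_an.Normality

open Pool.Agent.Helper24 Filter Topology

/-- If every increasing order bounded sequence of an ordered Banach space `X` (real Banach space with
a closed cone `{x | 0 ≤ x}`, not assumed generating) has a supremum, then the cone of `X` is
normal. -/
theorem result {X : Type*} [NormedAddCommGroup X] [NormedSpace ℝ X] [CompleteSpace X]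
    [PartialOrder X] [IsOrderedAddMonoid X] [PosSMulMono ℝ X]
    (hclosed : IsClosed {x : X | 0 ≤ x})
    (hS : ∀ x : ℕ → X, Monotone x → BddAbove (Set.range x) → ∃ s, IsLUB (Set.range x) s) :
    ∃ c : ℝ, 0 < c ∧ ∀ x y : X, 0 ≤ x → x ≤ y → ‖x‖ ≤ c * ‖y‖ := by
  by_contra hcon
  push Not at hcon
  have h1 : ∀ k : ℕ, ∃ x y : X, 0 ≤ x ∧ x ≤ y ∧ ‖x‖ = 2 ^ k ∧ ‖y‖ ≤ (1 / 2) ^ k := by
    intro k
    obtain ⟨x, y, hx, hxy, hn⟩ := hcon (4 ^ k) (by positivity)
    have hxn : 0 < ‖x‖ := lt_of_le_of_lt (by positivity) hn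
    set t : ℝ := 2 ^ k / ‖x‖ with ht
    have ht0 : 0 ≤ t := by positivity
    refine ⟨t • x, t • y, smul_nonneg ht0 hx, smul_le_smul_of_nonneg_left hxy ht0, ?_, ?_⟩
    · rw [norm_smul, Real.norm_of_nonneg ht0, ht, div_mul_cancel₀ _ hxn.ne']
    · rw [norm_smul, Real.norm_of_nonneg ht0, ht, div_mul_eq_mul_div, div_le_iff₀ hxn]
      have h2 : (2:ℝ) ^ k * ‖y‖ = (1 / 2) ^ k * (4 ^ k * ‖y‖) := by
        rw [← mul_assoc, ← mul_pow]
        norm_num
      rw [h2]
      exact mul_le_mul_of_nonneg_left hn.le (by positivity)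
  choose x y hx hxy hxn hyn using h1
  have hy0 : ∀ k, 0 ≤ y k := fun k => (hx k).trans (hxy k)
  have hsum : Summable y := by
    refine Summable.of_norm_bounded (g := fun k : ℕ => (1 / 2 : ℝ) ^ k) ?_ hyn
    exact summable_geometric_two
  have hyle : ∀ n, ∑ k ∈ Finset.range n, y k ≤ ∑' k, y k := by
    intro n
    have h2 : Tendsto (fun m => ∑ k ∈ Finset.range m, y k) atTop (𝓝 (∑' k, y k)) :=
      hsum.hasSum.tendsto_sum_nat
    have h3 : Tendsto (fun m => ∑ k ∈ Finset.range m, y k - ∑ k ∈ Finset.range n, y k) atTop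
        (𝓝 (∑' k, y k - ∑ k ∈ Finset.range n, y k)) := h2.sub_const _
    rw [← sub_nonneg]
    refine hclosed.mem_of_tendsto h3 ?_
    filter_upwards [eventually_ge_atTop n] with m hm
    show 0 ≤ _
    rw [sub_nonneg]
    exact Finset.sum_le_sum_of_subset_of_nonneg (Finset.range_mono hm) (fun k _ _ => hy0 k)
  obtain ⟨T, hT⟩ := exists_orderSum hclosed hS x hx (∑' k, y k) (fun n =>
    (Finset.sum_le_sum fun k _ => hxy k).trans (hyle n))
  obtain ⟨k, hk⟩ := pow_unbounded_of_one_lt ‖T‖ (one_lt_two (α := ℝ))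
  have h2 := T.le_opNorm (ind {k})
  rw [orderSum_single hx T hT k, hxn k] at h2
  have h3 : ‖T‖ * ‖ind {k}‖ ≤ ‖T‖ := mul_le_of_le_one_right T.opNorm_nonneg (norm_ind_le _)
  linarith

end Pool.Agent.Results.MP_5127fd_an.Normality
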