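import Mathlib
import Pool.Agent.Helper24.OrderSum

set_option autoImplicit false

/-!
Q2: in a separable ordered Banach space in which every increasing order bounded sequence has a
supremum, every increasing order bounded sequence converges in norm.

Proof.  If an increasing order bounded sequence is not norm Cauchy, its increments give `x k ≥ 0` with
bounded partial sums and `‖x k‖ ≥ δ`.  By `exists_orderSum` there is a bounded operator
`T : ℓ^∞ → X` with `T (e k) = x k`.  Let `φ k` be norming functionals of `x k`.  A form of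
Rosenthal's lemma gives an infinite set `R` such that `|φ k ∘ T|` has mass at most `δ / 2` on `R \ k` for
every `k ∈ R`; hence the vectors `T 1_A`, `A ⊆ R`, are `δ / 2`-separated and `X` is not separable.
-/

namespace Pool.Agent.Results.MP_5127fd_an.SeparableConvergence

open Pool.Agent.Helper24 Filter Topology

/-- A form of Rosenthal's lemma for bounded superadditive set functions. -/
theorem rosenthal (ν : ℕ → Set ℕ → ℝ) (C : ℝ) (h0 : ∀ k A, 0 ≤ ν k A) (hC : ∀ k A, ν k A ≤ C)
    (hadd : ∀ k A B, Disjoint A B → ν k A + ν k B ≤ ν k (A ∪ B)) (ε : ℝ) (hε : 0 < ε) :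
    ∃ f : ℕ → ℕ, Function.Injective f ∧ ∀ k ∈ Set.range f, ν k (Set.range f \ {k}) ≤ ε := by
  by_contra hcon
  push Not at hcon
  have hmono : ∀ k A B, A ⊆ B → ν k A ≤ ν k B := by
    intro k A B hAB
    have h1 := hadd k A (B \ A) disjoint_sdiff_self_right
    rw [Set.union_sdiff_cancel hAB] at h1
    have := h0 k (B \ A)
    linarith
  have hclaim : ∀ n : ℕ, ∃ f : ℕ → ℕ, Function.Injective f ∧
      ∀ k ∈ Set.range f, ν k (Set.range f) ≤ C - n * ε := by
    intro n
    induction n with
    | zero =>
      refine ⟨id, Function.injective_id, fun k _ => ?_⟩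
      have := hC k (Set.range id)
      simpa using this
    | succ n ih =>
      obtain ⟨f, hf, hfν⟩ := ih
      have h1 : ∀ p : ℕ, Function.Injective (fun q => f (Nat.pair p q)) := by
        intro p a b hab
        have := hf hab
        rw [Nat.pair_eq_pair] at this
        exact this.2
      have h2 : ∀ p : ℕ, ∃ k ∈ Set.range (fun q => f (Nat.pair p q)),
          ε < ν k (Set.range (fun q => f (Nat.pair p q)) \ {k}) := fun p => hcon _ (h1 p)
      choose g hg1 hg2 using h2
      have h3 : ∀ p p', g p' ∈ Set.range (fun q => f (Nat.pair p q)) → p' = p := by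
        intro p p' h
        obtain ⟨q, hq⟩ := h
        obtain ⟨q', hq'⟩ := hg1 p'
        have h4 := hf (hq'.trans hq.symm)
        rw [Nat.pair_eq_pair] at h4
        exact h4.1
      refine ⟨g, ?_, ?_⟩
      · intro p p' h
        exact (h3 p' p (h ▸ hg1 p'))
      · rintro _ ⟨p, rfl⟩
        have h4 : Disjoint (Set.range g) (Set.range (fun q => f (Nat.pair p q)) \ {g p}) := by
          rw [Set.disjoint_left]
          rintro _ ⟨p', rfl⟩ h
          have h5 := h3 p p' h.1
          exact h.2 (by rw [h5]; rfl)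
        have h5 := hadd (g p) _ _ h4
        have h6 : Set.range g ∪ (Set.range (fun q => f (Nat.pair p q)) \ {g p}) ⊆ Set.range f := by
          rintro z (⟨p', rfl⟩ | ⟨⟨q, rfl⟩, _⟩)
          · obtain ⟨q, hq⟩ := hg1 p'
            exact ⟨_, hq⟩
          · exact ⟨_, rfl⟩
        have h7 := hmono (g p) _ _ h6
        have h8 : g p ∈ Set.range f := by
          obtain ⟨q, hq⟩ := hg1 p
          exact ⟨_, hq⟩
        have h9 := hfν (g p) h8
        have h10 := hg2 p
        push_cast
        linarith
  obtain ⟨n, hn⟩ := exists_nat_gt (C / ε)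
  obtain ⟨f, _, hf⟩ := hclaim n
  have h1 := hf (f 0) ⟨0, rfl⟩
  have h2 := h0 (f 0) (Set.range f)
  rw [div_lt_iff₀ hε] at hn
  linarith

/-- A bounded operator on the bounded sequences with values in a separable space maps the unit
vectors to vectors whose norms are not bounded below by a positive number. -/
theorem not_separated {X : Type*} [NormedAddCommGroup X] [NormedSpace ℝ X]
    [TopologicalSpace.SeparableSpace X] (T : BoundedContinuousFunction ℕ ℝ →L[ℝ] X) (δ : ℝ)
    (hδ : 0 < δ) (hT : ∀ k, δ ≤ ‖T (ind {k})‖) : False := by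
  classical
  have hφ : ∀ k, ∃ φ : StrongDual ℝ X, ‖φ‖ ≤ 1 ∧ δ ≤ φ (T (ind {k})) := by
    intro k
    obtain ⟨φ, h1, h2⟩ := exists_dual_vector'' ℝ (T (ind {k}))
    refine ⟨φ, h1, ?_⟩
    rw [h2]
    simpa using hT k
  choose φ hφ1 hφ2 using hφ
  let Sset : ℕ → Set ℕ → Set ℝ := fun k A =>
    {r | ∃ a : BoundedContinuousFunction ℕ ℝ, ‖a‖ ≤ 1 ∧ (∀ n, n ∉ A → a n = 0) ∧ r = φ k (T a)}
  have hle : ∀ k (a : BoundedContinuousFunction ℕ ℝ), ‖a‖ ≤ 1 → φ k (T a) ≤ ‖T‖ := by
    intro k a ha
    calc φ k (T a) ≤ ‖φ k (T a)‖ := Real.le_norm_self _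
      _ ≤ ‖φ k‖ * ‖T a‖ := (φ k).le_opNorm _
      _ ≤ 1 * (‖T‖ * ‖a‖) := mul_le_mul (hφ1 k) (T.le_opNorm a) (norm_nonneg _) zero_le_one
      _ ≤ 1 * (‖T‖ * 1) := by
          gcongr
      _ = ‖T‖ := by ring
  have hbdd : ∀ k A, BddAbove (Sset k A) := by
    intro k A
    refine ⟨‖T‖, ?_⟩
    rintro _ ⟨a, ha, _, rfl⟩
    exact hle k a ha
  have hzero : ∀ k A, (0:ℝ) ∈ Sset k A := fun k A => ⟨0, by simp, by simp, by simp⟩
  obtain ⟨f, hf, hfν⟩ := rosenthal (fun k A => sSup (Sset k A)) ‖T‖
    (fun k A => le_csSup (hbdd k A) (hzero k A))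
    (fun k A => csSup_le ⟨0, hzero k A⟩ (by rintro _ ⟨a, ha, _, rfl⟩; exact hle k a ha))
    (by
      intro k A B hAB
      have key : ∀ r ∈ Sset k A, ∀ s ∈ Sset k B, r + s ≤ sSup (Sset k (A ∪ B)) := by
        rintro _ ⟨a, ha, ha', rfl⟩ _ ⟨b, hb, hb', rfl⟩
        refine le_csSup (hbdd _ _) ⟨a + b, ?_, ?_, ?_⟩
        · refine (BoundedContinuousFunction.norm_le zero_le_one).2 fun n => ?_
          rw [BoundedContinuousFunction.add_apply]
          by_cases hn : n ∈ A
          · have h1 : b n = 0 := hb' n (Set.disjoint_left.1 hAB hn)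
            rw [h1, add_zero]
            exact (a.norm_coe_le_norm n).trans ha
          · rw [ha' n hn, zero_add]
            exact (b.norm_coe_le_norm n).trans hb
        · intro n hn
          rw [BoundedContinuousFunction.add_apply, ha' n (fun h => hn (Or.inl h)),
            hb' n (fun h => hn (Or.inr h)), add_zero]
        · rw [map_add, map_add]
      have h1 : ∀ s ∈ Sset k B, sSup (Sset k A) ≤ sSup (Sset k (A ∪ B)) - s := by
        intro s hs
        refine csSup_le ⟨0, hzero k A⟩ fun r hr => ?_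
        have := key r hr s hs
        linarith
      have h2 : sSup (Sset k B) ≤ sSup (Sset k (A ∪ B)) - sSup (Sset k A) := by
        refine csSup_le ⟨0, hzero k B⟩ fun s hs => ?_
        have := h1 s hs
        linarith
      show sSup (Sset k A) + sSup (Sset k B) ≤ sSup (Sset k (A ∪ B))
      linarith) (δ / 2) (by positivity)
  -- the uncountable separated family
  have hasym : ∀ A B : Set ℕ, ∀ j, j ∈ A → j ∉ B → δ / 2 ≤ ‖T (ind (f '' A)) - T (ind (f '' B))‖ := by
    intro A B j hjA hjB
    set k := f j with hk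
    let w : BoundedContinuousFunction ℕ ℝ := ind (f '' A \ {k}) - ind (f '' B)
    have hkB : k ∉ f '' B := by
      rintro ⟨i, hi, hik⟩
      exact hjB (hf hik ▸ hi)
    have h1 : ind (f '' A) - ind (f '' B) = ind {k} + w := by
      ext n
      simp only [w, BoundedContinuousFunction.coe_sub, BoundedContinuousFunction.coe_add,
        Pi.sub_apply, Pi.add_apply, ind_apply]
      by_cases hn : n = k
      · have h3 : n ∈ f '' A := ⟨j, hjA, hn.symm⟩
        have h4 : n ∉ f '' A \ {k} := fun h => h.2 hn
        have h5 : n ∈ ({k} : Set ℕ) := hn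
        rw [Set.indicator_of_mem h3, Set.indicator_of_notMem h4, Set.indicator_of_mem h5]
        ring
      · have h5 : n ∉ ({k} : Set ℕ) := hn
        by_cases hnA : n ∈ f '' A
        · have h4 : n ∈ f '' A \ {k} := ⟨hnA, hn⟩
          rw [Set.indicator_of_mem hnA, Set.indicator_of_mem h4, Set.indicator_of_notMem h5]
          ring
        · have h4 : n ∉ f '' A \ {k} := fun h => hnA h.1
          rw [Set.indicator_of_notMem hnA, Set.indicator_of_notMem h4, Set.indicator_of_notMem h5]
          ring
    have hw1 : ‖-w‖ ≤ 1 := by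
      rw [norm_neg]
      refine (BoundedContinuousFunction.norm_le zero_le_one).2 fun n => ?_
      simp only [w, BoundedContinuousFunction.coe_sub, Pi.sub_apply, ind_apply]
      by_cases h3 : n ∈ f '' A \ {k}
      · by_cases h4 : n ∈ f '' B
        · rw [Set.indicator_of_mem h3, Set.indicator_of_mem h4]; norm_num
        · rw [Set.indicator_of_mem h3, Set.indicator_of_notMem h4]; norm_num
      · by_cases h4 : n ∈ f '' B
        · rw [Set.indicator_of_notMem h3, Set.indicator_of_mem h4]; norm_num
        · rw [Set.indicator_of_notMem h3, Set.indicator_of_notMem h4]; norm_num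
    have hw2 : ∀ n, n ∉ Set.range f \ {k} → (-w) n = 0 := by
      intro n hn
      simp only [w, BoundedContinuousFunction.coe_neg, BoundedContinuousFunction.coe_sub,
        Pi.neg_apply, Pi.sub_apply, ind_apply]
      have h3 : n ∉ f '' A \ {k} := fun h => hn ⟨Set.image_subset_range f A h.1, h.2⟩
      have h4 : n ∉ f '' B := by
        intro h
        refine hn ⟨Set.image_subset_range f B h, ?_⟩
        rintro rfl
        exact hkB h
      rw [Set.indicator_of_notMem h3, Set.indicator_of_notMem h4]
      ring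
    have h2 : φ k (T (-w)) ≤ δ / 2 :=
      (le_csSup (hbdd k (Set.range f \ {k})) ⟨-w, hw1, hw2, rfl⟩).trans (hfν k ⟨j, rfl⟩)
    have h3 : φ k (T (ind (f '' A)) - T (ind (f '' B))) = φ k (T (ind {k})) - φ k (T (-w)) := by
      rw [← map_sub, h1, map_add, map_add, map_neg, map_neg]
      ring
    have h4 : φ k (T (ind (f '' A)) - T (ind (f '' B))) ≤
        ‖T (ind (f '' A)) - T (ind (f '' B))‖ := by
      calc _ ≤ ‖φ k (T (ind (f '' A)) - T (ind (f '' B)))‖ := Real.le_norm_self _
        _ ≤ ‖φ k‖ * ‖T (ind (f '' A)) - T (ind (f '' B))‖ := (φ k).le_opNorm _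
        _ ≤ 1 * ‖T (ind (f '' A)) - T (ind (f '' B))‖ := by gcongr; exact hφ1 k
        _ = _ := one_mul _
    have h5 := hφ2 k
    linarith
  have hsep : ∀ A B : Set ℕ, A ≠ B → δ / 2 ≤ ‖T (ind (f '' A)) - T (ind (f '' B))‖ := by
    intro A B hAB
    by_cases h : A ⊆ B
    · have h' : ¬ B ⊆ A := fun h' => hAB (h.antisymm h')
      obtain ⟨j, hj1, hj2⟩ := Set.not_subset.1 h'
      rw [norm_sub_rev]
      exact hasym B A j hj1 hj2
    · obtain ⟨j, hj1, hj2⟩ := Set.not_subset.1 h
      exact hasym A B j hj1 hj2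
  have hcount : (Set.univ : Set (Set ℕ)).Countable := by
    refine Set.PairwiseDisjoint.countable_of_isOpen
      (s := fun A => Metric.ball (T (ind (f '' A))) (δ / 4)) ?_ (fun _ _ => Metric.isOpen_ball)
      (fun A _ => ⟨_, Metric.mem_ball_self (by positivity)⟩)
    intro A _ B _ hAB
    refine Metric.ball_disjoint_ball ?_
    rw [dist_eq_norm]
    have := hsep A B hAB
    linarith
  rw [Set.countable_univ_iff] at hcount
  obtain ⟨i, hi⟩ := (countable_iff_exists_injective (Set ℕ)).1 hcount
  exact Function.cantor_injective i hi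

/-- If every increasing order bounded sequence of a separable ordered Banach space `X` (real Banach
space with a closed cone `{x | 0 ≤ x}`) has a supremum, then every increasing order bounded sequence
converges in norm. -/
theorem result {X : Type*} [NormedAddCommGroup X] [NormedSpace ℝ X] [CompleteSpace X]
    [PartialOrder X] [IsOrderedAddMonoid X] [PosSMulMono ℝ X]
    [TopologicalSpace.SeparableSpace X] (hclosed : IsClosed {x : X | 0 ≤ x})
    (hS : ∀ x : ℕ → X, Monotone x → BddAbove (Set.range x) → ∃ s, IsLUB (Set.range x) s) :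
    ∀ x : ℕ → X, Monotone x → BddAbove (Set.range x) → ∃ l, Tendsto x atTop (𝓝 l) := by
  intro z hz hbdd
  obtain ⟨y, hy⟩ := hbdd
  by_contra hcon
  have hnc : ¬ CauchySeq z := fun h => hcon (cauchySeq_tendsto_of_complete h)
  rw [Metric.cauchySeq_iff'] at hnc
  push Not at hnc
  obtain ⟨δ, hδ, hnc⟩ := hnc
  choose e he1 he2 using hnc
  -- the increments
  let m : ℕ → ℕ := fun k => e^[k] 0
  have hm : ∀ k, m (k + 1) = e (m k) := fun k => Function.iterate_succ_apply' e k 0
  let x : ℕ → X := fun k => z (m (k + 1)) - z (m k)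
  have hx : ∀ k, 0 ≤ x k := by
    intro k
    have h1 : m k ≤ m (k + 1) := by rw [hm]; exact he1 _
    exact sub_nonneg.2 (hz h1)
  have hxn : ∀ k, δ ≤ ‖x k‖ := by
    intro k
    have h1 := he2 (m k)
    rw [dist_eq_norm, ← hm] at h1
    exact h1
  have hsum : ∀ n, ∑ k ∈ Finset.range n, x k ≤ y - z (m 0) := by
    intro n
    rw [Finset.sum_range_sub (fun k => z (m k)) n]
    exact sub_le_sub_right (hy ⟨m n, rfl⟩) _
  obtain ⟨T, hT⟩ := exists_orderSum hclosed hS x hx _ hsum
  refine not_separated T δ hδ (fun k => ?_)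
  rw [orderSum_single hx T hT k]
  exact hxn k

end Pool.Agent.Results.MP_5127fd_an.SeparableConvergence
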